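import Pool.Agent.TH723.AF.Main

/-!
# MP_5f80dd_lc, Q2: bi-embeddability of separable AF algebras is complete analytic

`H` is an arbitrary separable infinite dimensional complex Hilbert space, `Γ(H) = B(H)^ℕ` is the
space of sequences of bounded operators with the product of the Borel structures of the weak
operator topology, and `γ ∈ Γ(H)` codes the C*-algebra `C*(γ)` generated by the entries of `γ`.

Idea of the proof. An analytic quasi-order `R` is coded by labelled trees `Λ x` on `List ℤ`: `R x y`
holds if and only if there is a length preserving and extension preserving map `g` of the tree such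
that the label set of `p` in `Λ x` is contained in the label set of `g p` in `Λ y`, and then `g` can
be chosen to be an automorphism of the tree. The AF algebra of a labelled tree is the algebra of
its path groupoid: a vertex `v` (a node or a label) has `q_v` loops and one edge to its parent,
where the prime `q_v` depends on the level of `v` and on the label only. An automorphism as above
gives a unitary which conjugates one algebra into the other. Conversely an embedding gives rank
vectors of the images of the vertex projections, and divisibility by powers of the primes `q_v`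
together with the growth of the ranks at the leaves of their supports give a map of the trees.
-/

set_option autoImplicit false

open scoped InnerProductSpace

namespace Pool.Agent.Results.MP_5f80dd_lc.AFComplete

universe u v

section defs

variable {A : Type v} [CStarAlgebra A]

/-- The C*-algebra `C*(γ)` generated by the entries of a sequence `γ` in a C*-algebra `A` (below,
`A = B(H)`): the norm closure of the (not necessarily unital) *-algebra generated by them. -/
noncomputable def CStar (γ : ℕ → A) : Set A :=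
  closure (NonUnitalStarAlgebra.adjoin ℂ (Set.range γ))

/-- `C*(γ)` embeds into `C*(δ)`: there is an injective *-homomorphism `φ : C*(γ) → C*(δ)` (the
values of `φ` outside of `C*(γ)` are irrelevant). -/
def Embeds (γ δ : ℕ → A) : Prop :=
  ∃ φ : A → A, Set.MapsTo φ (CStar γ) (CStar δ) ∧ Set.InjOn φ (CStar γ) ∧
    ∀ a ∈ CStar γ, ∀ b ∈ CStar γ, ∀ c : ℂ,
      φ (a + b) = φ a + φ b ∧ φ (a * b) = φ a * φ b ∧
        φ (star a) = star (φ a) ∧ φ (c • a) = c • φ a

/-- `C*(γ)` and `C*(δ)` are bi-embeddable. -/
def BiEmbeddable (γ δ : ℕ → A) : Prop := Embeds γ δ ∧ Embeds δ γ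

/-- `C*(γ)` is an AF algebra: it is the closure of the union of an increasing sequence of finite
dimensional *-subalgebras. -/
def IsAF (γ : ℕ → A) : Prop :=
  ∃ N : ℕ → NonUnitalStarSubalgebra ℂ A, Monotone N ∧
    (∀ n, FiniteDimensional ℂ (N n).toSubmodule) ∧ CStar γ = closure (⋃ n, (N n : Set A))

end defs

section borel

variable {H : Type v} [NormedAddCommGroup H] [InnerProductSpace ℂ H] [CompleteSpace H]

/-- The Borel structure of the weak operator topology on `B(H)`. -/
noncomputable def wotBorel : MeasurableSpace (H →L[ℂ] H) :=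
  @borel (H →L[ℂ] H)
    (TopologicalSpace.induced (fun (T : H →L[ℂ] H) (q : H × H) => ⟪q.1, T q.2⟫_ℂ) inferInstance)

/-- A map into `Γ(H) = B(H)^ℕ` is Borel (for the product of the Borel structures of the weak
operator topology). -/
def BorelMap {X : Type u} [MeasurableSpace X] (f : X → ℕ → (H →L[ℂ] H)) : Prop :=
  @Measurable X (ℕ → (H →L[ℂ] H)) _ (@MeasurableSpace.pi ℕ _ fun _ => wotBorel) f

end borel

/-- A relation on a standard Borel space is analytic: it is the projection of a Borel subset of
`X × X × ℕ^ℕ`. -/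
def Analytic {X : Type u} [MeasurableSpace X] (R : X → X → Prop) : Prop :=
  ∃ B : Set ((X × X) × (ℕ → ℕ)), MeasurableSet B ∧ ∀ x y, R x y ↔ ∃ w, ((x, y), w) ∈ B

section bridge

variable {H : Type v} [NormedAddCommGroup H] [InnerProductSpace ℂ H] [CompleteSpace H]

theorem coe_CA (γ : ℕ → (H →L[ℂ] H)) : (TH723.AF.CA γ : Set (H →L[ℂ] H)) = CStar γ := rfl

theorem mem_CA {γ : ℕ → (H →L[ℂ] H)} {a : H →L[ℂ] H} : a ∈ TH723.AF.CA γ ↔ a ∈ CStar γ := Iff.rfl

theorem embeds_iff (γ δ : ℕ → (H →L[ℂ] H)) :
    Embeds γ δ ↔ ∃ φ : TH723.AF.CA γ →⋆ₙₐ[ℂ] TH723.AF.CA δ, Function.Injective φ := by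
  classical
  constructor
  · rintro ⟨φ, h1, h2, h3⟩
    refine ⟨{ toFun := fun x => ⟨φ x, h1 x.2⟩, map_smul' := ?_, map_zero' := ?_,
              map_add' := ?_, map_mul' := ?_, map_star' := ?_ }, ?_⟩
    · intro c x
      exact Subtype.ext (h3 x x.2 x x.2 c).2.2.2
    · have h := (h3 (0 : TH723.AF.CA γ) (0 : TH723.AF.CA γ).2 (0 : TH723.AF.CA γ)
        (0 : TH723.AF.CA γ).2 0).1
      refine Subtype.ext ?_
      change φ 0 = 0
      simpa using h
    · intro x y
      exact Subtype.ext (h3 x x.2 y y.2 0).1
    · intro x y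
      exact Subtype.ext (h3 x x.2 y y.2 0).2.1
    · intro x
      exact Subtype.ext (h3 x x.2 x x.2 0).2.2.1
    · intro x y hxy
      exact Subtype.ext (h2 x.2 y.2 (congrArg Subtype.val hxy))
  · rintro ⟨φ, hφ⟩
    let ψ : (H →L[ℂ] H) → (H →L[ℂ] H) := fun a =>
      if h : a ∈ TH723.AF.CA γ then (φ ⟨a, h⟩ : H →L[ℂ] H) else 0
    have hψ : ∀ (a : H →L[ℂ] H) (h : a ∈ TH723.AF.CA γ), ψ a = φ ⟨a, h⟩ := fun a h => dif_pos h
    refine ⟨ψ, ?_, ?_, ?_⟩
    · intro a ha
      have ha' : a ∈ TH723.AF.CA γ := ha
      rw [hψ a ha']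
      exact (φ ⟨a, ha'⟩).2
    · intro a ha b hb hab
      have ha' : a ∈ TH723.AF.CA γ := ha
      have hb' : b ∈ TH723.AF.CA γ := hb
      rw [hψ a ha', hψ b hb'] at hab
      exact congrArg Subtype.val (hφ (Subtype.ext hab))
    · intro a ha b hb c
      have ha' : a ∈ TH723.AF.CA γ := ha
      have hb' : b ∈ TH723.AF.CA γ := hb
      refine ⟨?_, ?_, ?_, ?_⟩
      · rw [hψ _ (add_mem ha' hb'), hψ a ha', hψ b hb']
        exact congrArg Subtype.val (map_add φ (⟨a, ha'⟩ : TH723.AF.CA γ) ⟨b, hb'⟩)
      · rw [hψ _ (mul_mem ha' hb'), hψ a ha', hψ b hb']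
        exact congrArg Subtype.val (map_mul φ (⟨a, ha'⟩ : TH723.AF.CA γ) ⟨b, hb'⟩)
      · rw [hψ _ (star_mem ha'), hψ a ha']
        exact congrArg Subtype.val (map_star φ (⟨a, ha'⟩ : TH723.AF.CA γ))
      · rw [hψ _ (SMulMemClass.smul_mem c ha'), hψ a ha']
        exact congrArg Subtype.val (map_smul φ c (⟨a, ha'⟩ : TH723.AF.CA γ))

end bridge

/-- **Bi-embeddability of separable AF algebras is a complete analytic equivalence relation.**
Let `H` be a separable infinite dimensional Hilbert space and let `R` be an analytic quasi-order on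
a standard Borel space `X`. There is a Borel map `f : X → Γ(H)` such that all the C*-algebras
`C*(f x)` are AF and `R x y` holds if and only if `C*(f x)` embeds into `C*(f y)`. Consequently, if
`R` is an analytic equivalence relation, then `f` is a Borel reduction of `R` to bi-embeddability
on the codes of separable AF algebras. -/
theorem result (H : Type v) [NormedAddCommGroup H] [InnerProductSpace ℂ H] [CompleteSpace H]
    [TopologicalSpace.SeparableSpace H] (hH : ¬ FiniteDimensional ℂ H)
    (X : Type u) [MeasurableSpace X] [StandardBorelSpace X] (R : X → X → Prop)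
    (hrefl : ∀ x, R x x) (htrans : ∀ x y z, R x y → R y z → R x z) (hR : Analytic R) :
    ∃ f : X → ℕ → (H →L[ℂ] H), BorelMap f ∧ (∀ x, IsAF (f x)) ∧
      (∀ x y, R x y ↔ Embeds (f x) (f y)) ∧
      (Equivalence R → ∀ x y, R x y ↔ BiEmbeddable (f x) (f y)) := by
  obtain ⟨f, h1, h2, h3⟩ := TH723.AF.main hH wotBorel R hrefl htrans hR
  have h4 : ∀ x y, R x y ↔ Embeds (f x) (f y) := fun x y => (h3 x y).trans (embeds_iff _ _).symm
  refine ⟨f, h1, fun x => ?_, h4, fun hE x y =>
    ⟨fun h => ⟨(h4 x y).1 h, (h4 y x).1 (hE.symm h)⟩, fun h => (h4 x y).2 h.1⟩⟩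
  obtain ⟨N, g1, g2, g3⟩ := h2 x
  exact ⟨N, g1, g2, g3⟩

end Pool.Agent.Results.MP_5f80dd_lc.AFComplete
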